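import Pool.Agent.Helper18.NF.StA
import Pool.Agent.Helper18.NF.Basic

/-!
# Project NF: lower bound for `L(1, χ)`, complex characters (module NF-14)
-/

set_option autoImplicit false

open Finset Filter Topology
open Pool.Agent.Helper18.NF Pool.Agent.Helper18.BV
open scoped ArithmeticFunction.vonMangoldt ArithmeticFunction.zeta

namespace Pool.Agent.Helper81.NF

variable {n : ℕ} {r L : ArithmeticFunction ℝ} {κ : ℝ}

/-! ### powers of zeta -/

/-- powers of zeta, real values -/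
noncomputable def zp (k : ℕ) : ArithmeticFunction ℝ :=
  ((ζ : ArithmeticFunction ℕ) : ArithmeticFunction ℝ) ^ k

/-- powers of zeta, complex values -/
noncomputable def zc (k : ℕ) : ArithmeticFunction ℂ :=
  ((ζ : ArithmeticFunction ℕ) : ArithmeticFunction ℂ) ^ k

theorem zp_nonneg (k m : ℕ) : 0 ≤ zp k m := by
  induction k generalizing m with
  | zero =>
    rw [zp, pow_zero]
    rcases eq_or_ne m 1 with rfl | hm
    · simp
    · rw [ArithmeticFunction.one_apply_ne hm]
  | succ k ih =>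
    rw [zp, pow_succ, ArithmeticFunction.mul_apply]
    apply Finset.sum_nonneg
    intro p _
    apply mul_nonneg (ih _)
    rw [ArithmeticFunction.natCoe_apply]
    exact Nat.cast_nonneg _

theorem zp_one (k : ℕ) : zp k 1 = 1 := by
  induction k with
  | zero => simp [zp]
  | succ k ih =>
    have h1 : zp (k + 1) = zp k * ((ζ : ArithmeticFunction ℕ) : ArithmeticFunction ℝ) := by
      simp [zp, pow_succ]
    rw [h1, ArithmeticFunction.mul_apply_one, ih]
    simp

theorem zc_eq (k m : ℕ) : zc k m = ((zp k m : ℝ) : ℂ) := by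
  induction k generalizing m with
  | zero =>
    rw [zp, zc, pow_zero, pow_zero]
    rcases eq_or_ne m 1 with rfl | hm
    · simp
    · rw [ArithmeticFunction.one_apply_ne hm, ArithmeticFunction.one_apply_ne hm]; simp
  | succ k ih =>
    have h1 : zp (k + 1) = zp k * ((ζ : ArithmeticFunction ℕ) : ArithmeticFunction ℝ) := by
      simp [zp, pow_succ]
    have h2 : zc (k + 1) = zc k * ((ζ : ArithmeticFunction ℕ) : ArithmeticFunction ℂ) := by
      simp [zc, pow_succ]
    rw [h1, h2, ArithmeticFunction.mul_apply, ArithmeticFunction.mul_apply]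
    push_cast
    refine Finset.sum_congr rfl fun p _ => ?_
    rw [ih, ArithmeticFunction.natCoe_apply, ArithmeticFunction.natCoe_apply]
    push_cast
    rfl

theorem zc_summable (k : ℕ) {s : ℂ} (hs : 1 < s.re) : LSeriesSummable (fun m => zc k m) s := by
  induction k with
  | zero =>
    refine LSeriesSummable_of_bounded_of_one_lt_re (m := 1) (fun m _ => ?_) hs
    rw [zc, pow_zero]
    rcases eq_or_ne m 1 with rfl | hm
    · simp
    · rw [ArithmeticFunction.one_apply_ne hm]; simp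
  | succ k ih =>
    have h2 : zc (k + 1) = zc k * ((ζ : ArithmeticFunction ℕ) : ArithmeticFunction ℂ) := by
      simp [zc, pow_succ]
    rw [h2]
    refine ArithmeticFunction.LSeriesSummable_mul ih ?_
    have h3 := ArithmeticFunction.LSeriesSummable_zeta_iff.2 hs
    refine (LSeriesSummable_congr s ?_).1 h3
    intro m _
    rfl

theorem r_le_zp (h : IsSys n r L κ) (m : ℕ) : r m ≤ zp n m := by
  rcases Nat.eq_zero_or_pos m with rfl | hm
  · simp
  have hZr : ∀ m : ℕ, 1 ≤ m → 0 ≤ (fun m => zp n m - r m) m := by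
    apply nonneg_of_log (f := fun m => zp n m - r m) (K := fun m => L m)
    · simp [zp_one, h.one]
    · exact h.L_nonneg
    · exact h.L_one
    · intro m hm
      have h1 : ∑ p ∈ m.divisorsAntidiagonal, (zp n p.1 - r p.1) * L p.2 =
          (∑ p ∈ m.divisorsAntidiagonal, zp n p.1 * L p.2) - r m * Real.log m := by
        rw [← h.conv_sum m, ← Finset.sum_sub_distrib]
        exact Finset.sum_congr rfl fun p _ => by ring
      rw [h1]
      have h2 : ∑ p ∈ m.divisorsAntidiagonal, zp n p.1 * L p.2 ≤ zp n m * Real.log m := by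
        have h3 : zp n m * Real.log m =
            ∑ p ∈ m.divisorsAntidiagonal, zp n p.1 * (n * Λ p.2) := by
          have h4 : (DR (zp n)) m = ((n : ArithmeticFunction ℝ) * (zp n * Λ)) m := by
            rw [zp, DR_zeta_pow]
          rw [DR_apply] at h4
          rw [h4]
          rw [natCast_mul_apply, ArithmeticFunction.mul_apply, Finset.mul_sum]
          exact Finset.sum_congr rfl fun p _ => by ring
        rw [h3]
        exact Finset.sum_le_sum fun p _ => mul_le_mul_of_nonneg_left (h.L_le _) (zp_nonneg _ _)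
      linarith
  have := hZr m hm
  simp only at this
  linarith

/-! ### L-series of the twists -/

theorem tw_conv (f g : ArithmeticFunction ℝ) {q : ℕ} (χ : DirichletCharacter ℂ q) :
    LSeries.convolution (tw f χ) (tw g χ) = tw (f * g) χ := by
  ext m
  rw [LSeries.convolution_def]
  simp only [tw]
  rw [ArithmeticFunction.mul_apply]
  push_cast
  rw [Finset.sum_mul]
  refine Finset.sum_congr rfl fun p hp => ?_
  rw [← (Nat.mem_divisorsAntidiagonal.1 hp).1]
  push_cast
  rw [map_mul]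
  ring

theorem tw_one {q : ℕ} (χ : DirichletCharacter ℂ q) :
    tw (1 : ArithmeticFunction ℝ) χ = LSeries.delta := by
  ext m
  simp only [tw]
  rcases eq_or_ne m 1 with rfl | hm
  · simp [LSeries.delta]
  · rw [ArithmeticFunction.one_apply_ne hm]
    simp [LSeries.delta, hm]

theorem cr_eq (r : ArithmeticFunction ℝ) : cr r = tw r (1 : DirichletCharacter ℂ 1) := by
  ext m
  simp only [cr, tw]
  rw [MulChar.one_apply (isUnit_of_subsingleton _), mul_one]

theorem norm_chi_le {q : ℕ} (χ : DirichletCharacter ℂ q) (a : ZMod q) : ‖χ a‖ ≤ 1 :=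
  χ.norm_le_one a

theorem tw_summable_of_le (h : IsSys n r L κ) (f : ArithmeticFunction ℝ)
    (hf : ∀ m, |f m| ≤ r m) {q : ℕ} (χ : DirichletCharacter ℂ q) {s : ℂ} (hs : 1 < s.re) :
    LSeriesSummable (tw f χ) s := by
  refine Summable.of_norm_bounded (g := fun m => ‖LSeries.term (fun m => zc n m) s m‖)
    (zc_summable n hs).norm ?_
  intro m
  refine LSeries.norm_term_le s ?_
  rw [zc_eq, Complex.norm_real, Real.norm_eq_abs, abs_of_nonneg (zp_nonneg _ _)]
  simp only [tw]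
  rw [norm_mul, Complex.norm_real, Real.norm_eq_abs]
  have h1 := norm_chi_le χ (m : ZMod q)
  have h2 := hf m
  have h3 := r_le_zp h m
  have h4 : |f m| * ‖χ (m : ZMod q)‖ ≤ |f m| * 1 := mul_le_mul_of_nonneg_left h1 (abs_nonneg _)
  linarith

theorem tw_summable (h : IsSys n r L κ) {q : ℕ} (χ : DirichletCharacter ℂ q) {s : ℂ}
    (hs : 1 < s.re) : LSeriesSummable (tw r χ) s :=
  tw_summable_of_le h r (fun m => by rw [abs_of_nonneg (h.r_nonneg m)]) χ hs

theorem twL_summable (h : IsSys n r L κ) {q : ℕ} (χ : DirichletCharacter ℂ q) {s : ℂ}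
    (hs : 1 < s.re) : LSeriesSummable (tw L χ) s := by
  have h0 : LSeriesSummable (fun m => ((Λ m : ℝ) : ℂ)) s :=
    ArithmeticFunction.LSeriesSummable_vonMangoldt hs
  refine Summable.of_norm_bounded
    (g := fun m => (n : ℝ) * ‖LSeries.term (fun m => ((Λ m : ℝ) : ℂ)) s m‖)
    (h0.norm.mul_left _) ?_
  intro m
  have h1 : ‖LSeries.term (tw L χ) s m‖ ≤
      ‖LSeries.term (fun m => (n : ℂ) * ((Λ m : ℝ) : ℂ)) s m‖ := by
    refine LSeries.norm_term_le s ?_
    simp only [tw]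
    rw [norm_mul, norm_mul, Complex.norm_real, Complex.norm_real, Real.norm_eq_abs,
      Real.norm_eq_abs, abs_of_nonneg (h.L_nonneg m),
      abs_of_nonneg ArithmeticFunction.vonMangoldt_nonneg, Complex.norm_natCast]
    have h2 := norm_chi_le χ (m : ZMod q)
    have h3 : L m * ‖χ (m : ZMod q)‖ ≤ L m * 1 := mul_le_mul_of_nonneg_left h2 (h.L_nonneg m)
    have h4 := h.L_le m
    linarith
  refine h1.trans (le_of_eq ?_)
  rcases eq_or_ne m 0 with rfl | hm
  · simp
  · rw [LSeries.term_of_ne_zero hm, LSeries.term_of_ne_zero hm, mul_div_assoc, norm_mul,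
      Complex.norm_natCast]

theorem tw_hasDerivAt (h : IsSys n r L κ) {q : ℕ} (χ : DirichletCharacter ℂ q) {s : ℂ}
    (hs : 1 < s.re) : HasDerivAt (LSeries (tw r χ))
      (-(LSeries (tw r χ) s * LSeries (tw L χ) s)) s := by
  have habs : LSeries.abscissaOfAbsConv (tw r χ) ≤ 1 := by
    refine LSeries.abscissaOfAbsConv_le_of_forall_lt_LSeriesSummable fun y hy => ?_
    exact tw_summable h χ (by simpa using hy)
  have habs' : LSeries.abscissaOfAbsConv (tw r χ) < s.re :=
    lt_of_le_of_lt habs (by exact_mod_cast hs)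
  have h1 := LSeries_hasDerivAt habs'
  have h2 : LSeries.logMul (tw r χ) = LSeries.convolution (tw r χ) (tw L χ) := by
    rw [tw_conv]
    ext m
    simp only [LSeries.logMul, tw]
    rw [h.conv m, ← Complex.natCast_log]
    push_cast
    ring
  rw [h2, LSeries_convolution' (tw_summable h χ hs) (twL_summable h χ hs)] at h1
  exact h1

/-- the total mass at `s = 2` -/
noncomputable def mass (r : ArithmeticFunction ℝ) : ℝ := ∑' m, ‖LSeries.term (cr r) 2 m‖

theorem cr_summable_norm (h : IsSys n r L κ) :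
    Summable fun m => ‖LSeries.term (cr r) 2 m‖ := by
  rw [cr_eq]
  exact (tw_summable h (1 : DirichletCharacter ℂ 1) (by norm_num : (1 : ℝ) < (2 : ℂ).re)).norm

theorem one_le_mass (h : IsSys n r L κ) : 1 ≤ mass r := by
  have h1 := (cr_summable_norm h).le_tsum 1 (fun m _ => norm_nonneg _)
  have h2 : ‖LSeries.term (cr r) 2 1‖ = 1 := by
    rw [LSeries.term_of_ne_zero one_ne_zero]
    simp [cr, h.one]
  rw [h2] at h1
  exact h1

theorem tw_lower_two (h : IsSys n r L κ) {q : ℕ} (χ : DirichletCharacter ℂ q) :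
    1 / mass r ≤ ‖LSeries (tw r χ) 2‖ := by
  obtain ⟨mu, hmu, hle⟩ := h.exists_inv
  have hs : (1 : ℝ) < (2 : ℂ).re := by norm_num
  have h1 : LSeries (tw r χ) 2 * LSeries (tw mu χ) 2 = 1 := by
    rw [← LSeries_convolution' (tw_summable h χ hs) (tw_summable_of_le h mu hle χ hs), tw_conv,
      hmu, tw_one, LSeries_delta]
    rfl
  have h2 : ‖LSeries (tw mu χ) 2‖ ≤ mass r := by
    unfold LSeries mass
    refine (norm_tsum_le_tsum_norm (tw_summable_of_le h mu hle χ hs).norm).trans ?_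
    refine (tw_summable_of_le h mu hle χ hs).norm.tsum_le_tsum ?_ (cr_summable_norm h)
    intro m
    refine LSeries.norm_term_le 2 ?_
    simp only [tw, cr]
    rw [norm_mul, Complex.norm_real, Complex.norm_real, Real.norm_eq_abs, Real.norm_eq_abs,
      abs_of_nonneg (h.r_nonneg m)]
    have h1 := norm_chi_le χ (m : ZMod q)
    have h2 := hle m
    have h4 : |mu m| * ‖χ (m : ZMod q)‖ ≤ |mu m| * 1 :=
      mul_le_mul_of_nonneg_left h1 (abs_nonneg _)
    linarith
  have h3 : ‖LSeries (tw r χ) 2‖ * ‖LSeries (tw mu χ) 2‖ = 1 := by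
    rw [← norm_mul, h1, norm_one]
  have h4 := one_le_mass h
  rw [div_le_iff₀ (by linarith)]
  have h5 : ‖LSeries (tw r χ) 2‖ * ‖LSeries (tw mu χ) 2‖ ≤ ‖LSeries (tw r χ) 2‖ * mass r :=
    mul_le_mul_of_nonneg_left h2 (norm_nonneg _)
  linarith

/-! ### the product inequality -/

theorem re_comb_nonneg (z : ℂ) (hz : z = 0 ∨ ‖z‖ = 1) : 0 ≤ (3 + 4 * z + z ^ 2).re := by
  rcases hz with rfl | hz
  · norm_num
  · have h1 : z.re ^ 2 + z.im ^ 2 = 1 := by
      have h2 : ‖z‖ ^ 2 = z.re ^ 2 + z.im ^ 2 := by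
        rw [← Complex.normSq_eq_norm_sq, Complex.normSq_apply]; ring
      rw [← h2, hz]; norm_num
    have h2 : (3 + 4 * z + z ^ 2).re = 3 + 4 * z.re + (z.re ^ 2 - z.im ^ 2) := by
      rw [pow_two]
      simp [Complex.mul_re]
      ring
    rw [h2]
    nlinarith [sq_nonneg (1 + z.re)]

theorem re_sum_nonneg (h : IsSys n r L κ) {q : ℕ} (χ : DirichletCharacter ℂ q) {x : ℝ}
    (hx : 1 < x) : 0 ≤ (3 * LSeries (tw L (1 : DirichletCharacter ℂ 1)) x +
      4 * LSeries (tw L χ) x + LSeries (tw L (χ ^ 2)) x).re := by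
  have hs : 1 < (x : ℂ).re := by simpa using hx
  have h1 : HasSum (fun m => LSeries.term (tw L (1 : DirichletCharacter ℂ 1)) x m)
      (LSeries (tw L (1 : DirichletCharacter ℂ 1)) x) := (twL_summable h _ hs).hasSum
  have h2 : HasSum (fun m => LSeries.term (tw L χ) x m) (LSeries (tw L χ) x) :=
    (twL_summable h _ hs).hasSum
  have h3 : HasSum (fun m => LSeries.term (tw L (χ ^ 2)) x m) (LSeries (tw L (χ ^ 2)) x) :=
    (twL_summable h _ hs).hasSum
  have h4 := ((h1.mul_left 3).add (h2.mul_left 4)).add h3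
  have h5 := Complex.hasSum_re h4
  refine h5.nonneg ?_
  intro m
  rcases eq_or_ne m 0 with rfl | hm
  · simp
  have hm0 : (0 : ℝ) < m := by exact_mod_cast Nat.pos_of_ne_zero hm
  have hpow : ((m : ℂ) ^ (x : ℂ)) = (((m : ℝ) ^ x : ℝ) : ℂ) := by
    rw [Complex.ofReal_cpow hm0.le]
    simp
  have h6 : 3 * LSeries.term (tw L (1 : DirichletCharacter ℂ 1)) x m +
      4 * LSeries.term (tw L χ) x m + LSeries.term (tw L (χ ^ 2)) x m =
      ((L m / (m : ℝ) ^ x : ℝ) : ℂ) * (3 + 4 * χ (m : ZMod q) + χ (m : ZMod q) ^ 2) := by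
    rw [LSeries.term_of_ne_zero hm, LSeries.term_of_ne_zero hm, LSeries.term_of_ne_zero hm, hpow]
    simp only [tw]
    rw [MulChar.one_apply (isUnit_of_subsingleton _), MulChar.pow_apply' _ two_ne_zero]
    push_cast
    ring
  change 0 ≤ (3 * LSeries.term (tw L (1 : DirichletCharacter ℂ 1)) x m +
      4 * LSeries.term (tw L χ) x m + LSeries.term (tw L (χ ^ 2)) x m).re
  rw [h6, Complex.re_ofReal_mul]
  refine mul_nonneg (div_nonneg (h.L_nonneg m) (by positivity)) (re_comb_nonneg _ ?_)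
  by_cases hu : IsUnit (m : ZMod q)
  · right
    obtain ⟨u, hu⟩ := hu
    rw [← hu]
    exact χ.unit_norm_eq_one u
  · left
    exact χ.map_nonunit hu

/-- the product of L-functions -/
noncomputable def GG (r : ArithmeticFunction ℝ) {q : ℕ} (χ : DirichletCharacter ℂ q) (s : ℂ) : ℂ :=
  LSeries (tw r (1 : DirichletCharacter ℂ 1)) s ^ 3 * LSeries (tw r χ) s ^ 4 *
    LSeries (tw r (χ ^ 2)) s

theorem GG_hasDerivAt (h : IsSys n r L κ) {q : ℕ} (χ : DirichletCharacter ℂ q) {s : ℂ}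
    (hs : 1 < s.re) : HasDerivAt (GG r χ) (-(GG r χ s *
      (3 * LSeries (tw L (1 : DirichletCharacter ℂ 1)) s +
      4 * LSeries (tw L χ) s + LSeries (tw L (χ ^ 2)) s))) s := by
  have h1 := (tw_hasDerivAt h (1 : DirichletCharacter ℂ 1) hs).pow 3
  have h2 := (tw_hasDerivAt h χ hs).pow 4
  have h3 := tw_hasDerivAt h (χ ^ 2) hs
  have h4 := (h1.mul h2).mul h3
  refine HasDerivAt.congr_deriv h4 ?_
  simp only [GG, Pi.pow_apply, Pi.mul_apply]
  push_cast
  ring

theorem GG_lower (h : IsSys n r L κ) {q : ℕ} (χ : DirichletCharacter ℂ q) {x : ℝ}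
    (hx : 1 < x) (hx2 : x ≤ 2) : 1 / mass r ^ 8 ≤ ‖GG r χ x‖ := by
  have hder : ∀ y : ℝ, 1 < y → HasDerivAt (fun y : ℝ => ‖GG r χ (y : ℂ)‖ ^ 2)
      (2 * (inner ℝ (GG r χ (y : ℂ)) (-(GG r χ y *
      (3 * LSeries (tw L (1 : DirichletCharacter ℂ 1)) y +
      4 * LSeries (tw L χ) y + LSeries (tw L (χ ^ 2)) y))))) y := by
    intro y hy
    have h1 := (GG_hasDerivAt h χ (s := (y : ℂ)) (by simpa using hy)).comp_ofReal
    exact h1.norm_sq
  have hneg : ∀ y : ℝ, 1 < y → 2 * (inner ℝ (GG r χ (y : ℂ)) (-(GG r χ y *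
      (3 * LSeries (tw L (1 : DirichletCharacter ℂ 1)) y +
      4 * LSeries (tw L χ) y + LSeries (tw L (χ ^ 2)) y)))) ≤ 0 := by
    intro y hy
    have h1 := re_sum_nonneg h χ hy
    set w := 3 * LSeries (tw L (1 : DirichletCharacter ℂ 1)) y +
      4 * LSeries (tw L χ) y + LSeries (tw L (χ ^ 2)) y with hw
    have h2 : inner ℝ (GG r χ (y : ℂ)) (-(GG r χ y * w)) = -(‖GG r χ y‖ ^ 2 * w.re) := by
      rw [Complex.inner]
      have h3 : -(GG r χ y * w) * (starRingEnd ℂ) (GG r χ y) =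
          -(((‖GG r χ y‖ ^ 2 : ℝ) : ℂ) * w) := by
        have h4 : (starRingEnd ℂ) (GG r χ y) * GG r χ y = ((‖GG r χ y‖ ^ 2 : ℝ) : ℂ) := by
          rw [← Complex.normSq_eq_conj_mul_self, Complex.normSq_eq_norm_sq]
        rw [← h4]
        ring
      rw [h3, Complex.neg_re, Complex.re_ofReal_mul]
    rw [h2]
    have := mul_nonneg (sq_nonneg ‖GG r χ y‖) h1
    linarith
  have hanti : AntitoneOn (fun y : ℝ => ‖GG r χ (y : ℂ)‖ ^ 2) (Set.Ioi 1) := by
    refine antitoneOn_of_deriv_nonpos (convex_Ioi 1) ?_ ?_ ?_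
    · intro y hy
      exact (hder y hy).continuousAt.continuousWithinAt
    · intro y hy
      rw [interior_Ioi] at hy
      exact (hder y hy).differentiableAt.differentiableWithinAt
    · intro y hy
      rw [interior_Ioi] at hy
      rw [(hder y hy).deriv]
      exact hneg y hy
  have h1 : ‖GG r χ ((2 : ℝ) : ℂ)‖ ^ 2 ≤ ‖GG r χ (x : ℂ)‖ ^ 2 :=
    hanti (Set.mem_Ioi.2 hx) (Set.mem_Ioi.2 (by norm_num)) hx2
  have h2 : ‖GG r χ ((2 : ℝ) : ℂ)‖ ≤ ‖GG r χ (x : ℂ)‖ :=
    le_of_sq_le_sq h1 (norm_nonneg _)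
  refine le_trans ?_ h2
  have hM := one_le_mass h
  have hc : ((2 : ℝ) : ℂ) = 2 := by norm_num
  rw [hc]
  unfold GG
  rw [norm_mul, norm_mul, norm_pow, norm_pow]
  have a1 := tw_lower_two h (1 : DirichletCharacter ℂ 1)
  have a2 := tw_lower_two h χ
  have a3 := tw_lower_two h (χ ^ 2)
  have hpos : 0 ≤ 1 / mass r := by positivity
  calc 1 / mass r ^ 8 = (1 / mass r) ^ 3 * (1 / mass r) ^ 4 * (1 / mass r) := by
        field_simp
    _ ≤ _ := by
        gcongr

/-- A3: lower bound for `L(1, χ)`, complex characters. -/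
theorem lComplexF (h1 : Cont) (h2 : Cont0) (h3 : LUpperF) : LComplexF := by
  intro n r L κ h ε hε
  obtain ⟨ρ, C0, hρ, hρn, hC0, hL⟩ := h3 n r L κ h (ε / 4) (by positivity)
  obtain ⟨C1, hC1, hcont⟩ := h1 n r L κ h
  obtain ⟨C2, Z0, hC2, hZd, hZ, hZb⟩ := h2 n r L κ h
  have hn1 : (1 : ℝ) ≤ n := by exact_mod_cast h.pos
  have hn0 : (0 : ℝ) < n := by linarith
  obtain ⟨C, hCdef⟩ : ∃ C, C = max C0 1 := ⟨_, rfl⟩
  have hC1' : 1 ≤ C := by rw [hCdef]; exact le_max_right _ _
  have hCC : C0 ≤ C := by rw [hCdef]; exact le_max_left _ _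
  -- the bound for the zeta function
  obtain ⟨K, hK⟩ : ∃ K, K = κ + 3 * n * C2 + 1 := ⟨_, rfl⟩
  have hκ := h.kpos
  have hK1 : 1 ≤ K := by
    have : 0 ≤ 3 * (n : ℝ) * C2 := by positivity
    linarith
  have hρ4 : ρ ≤ 1 / 4 := by
    refine hρn.trans ?_
    apply div_le_div_of_nonneg_left (by norm_num) (by norm_num)
    linarith
  have hzeta : ∀ x : ℝ, 0 < x → x ≤ 1 →
      ‖LSeries (tw r (1 : DirichletCharacter ℂ 1)) (1 + x)‖ ≤ K / x := by
    intro x hx hx1
    have hre : ((1 : ℂ) + x).re = 1 + x := by simp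
    have hs1 : 1 < ((1 : ℂ) + x).re := by rw [hre]; linarith
    have hsn : 1 - 1 / (n : ℝ) < ((1 : ℂ) + x).re := by
      have : 0 < 1 / (n : ℝ) := by positivity
      linarith
    have e1 := hZ _ hs1
    have e2 := hZb _ hsn (by rw [hre]; linarith)
    rw [← cr_eq, e1]
    have e3 : ((1 : ℂ) + x) - 1 = (x : ℂ) := by ring
    rw [e3]
    have e4 : ‖(κ : ℂ) / (x : ℂ)‖ = κ / x := by
      rw [norm_div, Complex.norm_real, Complex.norm_real, Real.norm_eq_abs, Real.norm_eq_abs,
        abs_of_pos hκ, abs_of_pos hx]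
    have e5 : ‖Z0 (1 + x)‖ ≤ 3 * n * C2 := by
      refine e2.trans ?_
      rw [hre]
      have e6 : ‖(1 : ℂ) + x‖ ≤ 2 := by
        refine (norm_add_le _ _).trans ?_
        rw [norm_one, Complex.norm_real, Real.norm_eq_abs, abs_of_pos hx]
        linarith
      have e7 : 1 / (n : ℝ) ≤ 1 + x - (1 - 1 / (n : ℝ)) := by linarith
      have e8 : C2 * (1 + ‖(1 : ℂ) + x‖) ≤ C2 * 3 :=
        mul_le_mul_of_nonneg_left (by linarith) hC2.le
      calc C2 * (1 + ‖(1 : ℂ) + x‖) / (1 + x - (1 - 1 / (n : ℝ)))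
          ≤ C2 * 3 / (1 / (n : ℝ)) := div_le_div₀ (by positivity) e8 (by positivity) e7
        _ = 3 * n * C2 := by field_simp
    have e9 : 3 * (n : ℝ) * C2 ≤ 3 * n * C2 / x := by
      rw [le_div_iff₀ hx]
      have : 0 ≤ 3 * (n : ℝ) * C2 := by positivity
      nlinarith
    have e10 : (0 : ℝ) ≤ 1 / x := by positivity
    calc ‖(κ : ℂ) / (x : ℂ) + Z0 (1 + x)‖ ≤ κ / x + 3 * n * C2 := by
          refine (norm_add_le _ _).trans ?_
          rw [e4]
          linarith
      _ ≤ κ / x + 3 * n * C2 / x + 1 / x := by linarith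
      _ = K / x := by rw [hK]; ring
  have hM := one_le_mass h
  obtain ⟨c0, hc0⟩ : ∃ c0, c0 = 1 / mass r ^ 8 := ⟨_, rfl⟩
  have hc0pos : 0 < c0 := by rw [hc0]; positivity
  have hc01 : c0 ≤ 1 := by
    rw [hc0, div_le_one (by positivity)]
    exact one_le_pow₀ hM
  refine ⟨ρ * c0 / (16 * K ^ 3 * C ^ 4), by positivity, ?_⟩
  intro q _ χ hχ2
  have hχ : χ ≠ 1 := by
    rintro rfl
    exact hχ2 (one_pow 2)
  have hq0 : (1 : ℝ) ≤ q := by exact_mod_cast Nat.one_le_iff_ne_zero.2 (NeZero.ne q)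
  set T : ℝ := (q : ℝ) ^ (ε / 4) with hT
  have hT1 : 1 ≤ T := Real.one_le_rpow hq0 (by positivity)
  have hT4 : T ^ 4 = (q : ℝ) ^ ε := by
    rw [hT, ← Real.rpow_natCast, ← Real.rpow_mul (by linarith)]
    congr 1
    push_cast
    ring
  set x : ℝ := ρ * c0 / (16 * K ^ 3 * C ^ 5 * T ^ 5) with hx
  have hden : 1 ≤ 16 * K ^ 3 * C ^ 5 * T ^ 5 := by
    have k1 : 1 ≤ K ^ 3 := one_le_pow₀ hK1
    have k2 : 1 ≤ C ^ 5 := one_le_pow₀ hC1'
    have k3 : 1 ≤ T ^ 5 := one_le_pow₀ hT1
    have k4 : 1 ≤ K ^ 3 * C ^ 5 := one_le_mul_of_one_le_of_one_le k1 k2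
    have k5 : 1 ≤ K ^ 3 * C ^ 5 * T ^ 5 := one_le_mul_of_one_le_of_one_le k4 k3
    nlinarith
  have hx0 : 0 < x := by positivity
  have hxρ : x ≤ ρ := by
    refine (div_le_self (by positivity) hden).trans ?_
    nlinarith
  have hx1 : x ≤ 1 := by linarith
  have hre : ((1 : ℂ) + x).re = 1 + x := by simp
  have hs1 : 1 < ((1 : ℂ) + x).re := by rw [hre]; linarith
  -- the product inequality
  have hprod := GG_lower h χ (x := 1 + x) (by linarith) (by linarith)
  rw [← hc0] at hprod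
  have hcast : ((1 + x : ℝ) : ℂ) = 1 + (x : ℂ) := by push_cast; ring
  rw [hcast] at hprod
  unfold GG at hprod
  rw [norm_mul, norm_mul, norm_pow, norm_pow] at hprod
  have hsub : ‖((1 : ℂ) + x) - 1‖ = x := by
    have : ((1 : ℂ) + x) - 1 = (x : ℂ) := by ring
    rw [this, Complex.norm_real, Real.norm_eq_abs, abs_of_pos hx0]
  have hb1 : ‖((1 : ℂ) + x) - 1‖ ≤ ρ := by rw [hsub]; exact hxρ
  have hL2 : ‖LSeries (tw r (χ ^ 2)) (1 + x)‖ ≤ C * T := by
    rw [← (hcont q (χ ^ 2) hχ2).2.1 _ hs1]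
    exact ((hL q (χ ^ 2) hχ2 _ hb1).1).trans (mul_le_mul_of_nonneg_right hCC (by positivity))
  have htr := hzeta x hx0 hx1
  set ℓ := ‖LF (tw r χ) 1‖ with hℓ
  have hyeq : LSeries (tw r χ) (1 + x) = LF (tw r χ) (1 + x) :=
    ((hcont q χ hχ).2.1 _ hs1).symm
  rw [hyeq] at hprod
  -- continuity
  have hdiff : ‖LF (tw r χ) (1 + x) - LF (tw r χ) 1‖ ≤ C * T * x := by
    have hconv : Convex ℝ (Metric.closedBall (1 : ℂ) ρ) := convex_closedBall _ _
    have hopen : IsOpen {s : ℂ | 1 - 1 / (n : ℝ) < s.re} :=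
      isOpen_lt continuous_const Complex.continuous_re
    have k1 := hconv.norm_image_sub_le_of_norm_deriv_le (f := LF (tw r χ))
      (C := C * T) (x := (1 : ℂ)) (y := 1 + x)
      (fun z hz => by
        refine ((hcont q χ hχ).1 z ?_).differentiableAt (hopen.mem_nhds ?_)
        all_goals
          rw [mem_closedBall_iff_norm] at hz
          have k2 := Complex.abs_re_le_norm (z - 1)
          have k3 := (abs_le.1 (k2.trans hz)).1
          rw [Complex.sub_re, Complex.one_re] at k3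
          have k4 : 1 / (4 * (n : ℝ)) < 1 / (n : ℝ) := by
            apply div_lt_div_of_pos_left (by norm_num) hn0
            linarith
          change 1 - 1 / (n : ℝ) < z.re
          linarith)
      (fun z hz => by
        rw [mem_closedBall_iff_norm] at hz
        exact ((hL q χ hχ z hz).2).trans (mul_le_mul_of_nonneg_right hCC (by positivity)))
      (Metric.mem_closedBall_self hρ.le)
      (by rw [mem_closedBall_iff_norm]; exact hb1)
    rw [hsub] at k1
    exact k1
  set y := ‖LF (tw r χ) (1 + x)‖ with hy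
  have hyℓ : y ≤ ℓ + C * T * x := by
    have k1 := norm_le_norm_add_norm_sub' (LF (tw r χ) (1 + x)) (LF (tw r χ) 1)
    linarith
  have hy0 : 0 ≤ y := norm_nonneg _
  have hℓ0 : 0 ≤ ℓ := norm_nonneg _
  have h4 : c0 ≤ (K / x) ^ 3 * y ^ 4 * (C * T) := by
    refine le_trans hprod ?_
    apply mul_le_mul _ hL2 (norm_nonneg _) (by positivity)
    apply mul_le_mul_of_nonneg_right _ (by positivity)
    exact pow_le_pow_left₀ (norm_nonneg _) htr 3
  have h5 : c0 * x ^ 3 ≤ K ^ 3 * C * T * y ^ 4 := by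
    have h6 : (K / x) ^ 3 * y ^ 4 * (C * T) = K ^ 3 * C * T * y ^ 4 / x ^ 3 := by
      field_simp
    rw [h6, le_div_iff₀ (by positivity)] at h4
    linarith
  have h6 : x * (16 * K ^ 3 * C ^ 5 * T ^ 5) ≤ c0 := by
    rw [hx, div_mul_cancel₀ _ (by positivity)]
    nlinarith
  have h7 : (2 * (C * T * x)) ^ 4 ≤ y ^ 4 := by
    have h8 : K ^ 3 * C * T * (2 * (C * T * x)) ^ 4 ≤ c0 * x ^ 3 := by
      have h9 : K ^ 3 * C * T * (2 * (C * T * x)) ^ 4 =
          x ^ 3 * (x * (16 * K ^ 3 * C ^ 5 * T ^ 5)) := by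
        ring
      rw [h9]
      have : 0 ≤ x ^ 3 := by positivity
      nlinarith
    have h10 : 0 < K ^ 3 * C * T := by positivity
    exact le_of_mul_le_mul_left (h8.trans h5) h10
  have h11 : 2 * (C * T * x) ≤ y := le_of_pow_le_pow_left₀ (by norm_num) hy0 h7
  have h12 : C * T * x ≤ ℓ := by linarith
  refine le_trans (le_of_eq ?_) h12
  rw [Real.rpow_neg (by linarith), ← hT4, hx]
  field_simp

end Pool.Agent.Helper81.NF
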